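import Mathlib

/-!
# Higher-order weak-coupling asymptotics on a Hilbert space: unitary groups and projections of norm
arbitrarily close to one; orthogonal projections are the exact borderline
-/

set_option autoImplicit false
open Filter Topology MeasureTheory

namespace Pool.Agent.Results.MP_245269_an.HilbertSpace

section Defs

variable {B : Type*} [NormedAddCommGroup B] [NormedSpace ℂ B]

/-- `U` (used at times `t ≥ 0`) is a strongly continuous one-parameter semigroup on `B`. -/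
structure IsC0Semigroup (U : ℝ → B →L[ℂ] B) : Prop where
  zero : U 0 = 1
  add : ∀ s t, 0 ≤ s → 0 ≤ t → U (s + t) = U s * U t
  cont : ∀ x, ContinuousOn (fun t => U t x) (Set.Ici 0)

/-- The (possibly unbounded) operator `A` is the generator of `U`: its domain consists exactly of
those `x` for which `(U h x - x) / h` converges as `h → 0+`, and the limit is `A x`. -/
def IsGenerator (A : B →ₗ.[ℂ] B) (U : ℝ → B →L[ℂ] B) : Prop :=
  (∀ x : B, x ∈ A.domain ↔
    ∃ y, Tendsto (fun h : ℝ => (h : ℂ)⁻¹ • (U h x - x)) (𝓝[>] 0) (𝓝 y)) ∧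
  ∀ x : A.domain, Tendsto (fun h : ℝ => (h : ℂ)⁻¹ • (U h x - x)) (𝓝[>] 0) (𝓝 (A x))

/-- The setting of the problem: a bounded projection `P` with finite-dimensional range, operators
`L0`, `L` (not assumed bounded) such that `L0` generates the `C_0`-semigroup `U 0` and `L0 + lam L`
generates the `C_0`-semigroup `U lam` for `0 < lam < lamSup`, with `U 0 t` leaving the range and the
kernel of `P` invariant, `P L P = 0`, and `U 0 t` invertible (`V` is the group extending it to all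
real times). -/
structure Setting (B : Type*) [NormedAddCommGroup B] [NormedSpace ℂ B] where
  P : B →L[ℂ] B
  P_proj : P * P = P
  P_fin : FiniteDimensional ℂ (LinearMap.range (P : B →ₗ[ℂ] B))
  L0 : B →ₗ.[ℂ] B
  L : B →ₗ.[ℂ] B
  lamSup : ℝ
  lamSup_pos : 0 < lamSup
  U : ℝ → ℝ → B →L[ℂ] B
  semigroup : ∀ lam, 0 ≤ lam → lam < lamSup → IsC0Semigroup (U lam)
  generator_zero : IsGenerator L0 (U 0)
  generator : ∀ lam, 0 < lam → lam < lamSup → IsGenerator (L0 + (lam : ℂ) • L) (U lam)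
  inv_range : ∀ t, 0 ≤ t → ∀ x, P x = x → P (U 0 t x) = U 0 t x
  inv_ker : ∀ t, 0 ≤ t → ∀ x, P x = 0 → P (U 0 t x) = 0
  PLP : ∀ x, ∃ h : P x ∈ L.domain, P (L ⟨P x, h⟩) = 0
  V : ℝ → B ≃L[ℂ] B
  V_nonneg : ∀ t, 0 ≤ t → (V t : B →L[ℂ] B) = U 0 t
  V_neg : ∀ t, t < 0 → V t = (V (-t)).symm

variable (S : Setting B)

/-- `y = L_t x`, where `L_t = (U^0_t)⁻¹ L U^0_t`. -/
def Setting.Lt (t : ℝ) (x y : B) : Prop :=
  ∃ h : S.V t x ∈ S.L.domain, (S.V t).symm (S.L ⟨S.V t x, h⟩) = y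

/-- `y = L_{t_1} L_{t_2} ⋯ L_{t_k} x` (all intermediate vectors lying in the domains). -/
def Setting.IsProd : List ℝ → B → B → Prop
  | [], x, y => x = y
  | t :: ts, x, y => ∃ z, Setting.IsProd ts x z ∧ S.Lt t z y

/-- `A` is the operator `P L_{t_1} ⋯ L_{t_k} P`.  (Operators on the range of `P` are represented by
operators `A` on `B` with `P A P = A`.) -/
def Setting.IsPProd (ts : List ℝ) (A : B →L[ℂ] B) : Prop :=
  ∀ x : B, ∃ y, S.IsProd ts (S.P x) y ∧ A x = S.P y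

/-- The integrability hypotheses of the problem for the integer `n`: for `1 ≤ k ≤ n + 1` the
operators `P L_{t_1} ⋯ L_{t_k} P` are well-defined and bounded for all real times and absolutely
integrable over `{t_k < ⋯ < t_1 < t}` for all `t ≥ 0`. -/
def Setting.Hypothesis (n : ℕ) : Prop :=
  ∀ k, 1 ≤ k → k ≤ n + 1 → ∃ A : (Fin k → ℝ) → B →L[ℂ] B,
    (∀ τ, S.IsPProd (List.ofFn τ) (A τ)) ∧
    ∀ t : ℝ, 0 ≤ t → IntegrableOn (fun τ => ‖A τ‖)
      {τ | (∀ i j, i < j → τ j < τ i) ∧ ∀ i, τ i < t}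

/-- The reduced dynamics `P (U^0_s)⁻¹ U^lam_s P`. -/
noncomputable def Setting.reduced (lam s : ℝ) : B →L[ℂ] B :=
  S.P * ((S.V s).symm : B →L[ℂ] B) * S.U lam s * S.P

/-- The product `u_t r` with `r = ∑_{j ≤ m} lam^j R_j` and `u_t = exp (t ∑_{j ≤ m'} lam^j G_j)`. -/
noncomputable def ansatz (m m' : ℕ) (R G : ℕ → B →L[ℂ] B) (lam t : ℝ) : B →L[ℂ] B :=
  NormedSpace.exp ((t : ℂ) • ∑ j ∈ Finset.range (m' + 1), ((lam : ℂ) ^ j) • G j) *
    ∑ j ∈ Finset.range (m + 1), ((lam : ℂ) ^ j) • R j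

/-- The conclusion of the problem for the integer `n`: there are operators `R_j`, `G_j` on the range
of `P` (that is, `P R_j P = R_j` and `P G_j P = G_j`) such that for every fixed `t > 0` the reduced
dynamics at time `t / lam ^ 2` is `u_t r + O(lam ^ (2 n + 2))` as `lam → 0+`. -/
def Setting.Conclusion (n : ℕ) : Prop :=
  ∃ (m m' : ℕ) (R G : ℕ → B →L[ℂ] B),
    (∀ j, S.P * R j * S.P = R j) ∧ (∀ j, S.P * G j * S.P = G j) ∧ ∀ t : ℝ, 0 < t →
    (fun lam : ℝ => S.reduced lam (t / lam ^ 2) - ansatz m m' R G lam t)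
      =O[𝓝[>] 0] (fun lam : ℝ => lam ^ (2 * n + 2))

/-- All `U lam t` are surjective isometries. -/
def Setting.Isometric : Prop :=
  ∀ lam t, (∀ x, ‖S.U lam t x‖ = ‖x‖) ∧ Function.Surjective (S.U lam t)

/-- `P L_{t_1} ⋯ L_{t_k} P = 0` for all real times and ALL `k ≥ 1`. -/
def Setting.VanishAll : Prop :=
  ∀ ts : List ℝ, 1 ≤ ts.length → S.IsPProd ts 0

/-- For no `m`, `m'`, `R_j`, `G_j` does the difference between the reduced dynamics at time
`t / lam ^ 2` and `u_t r` tend to `0` as `lam → 0+`. -/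
def Setting.NoExpansionAt (t : ℝ) : Prop :=
  ∀ (m m' : ℕ) (R G : ℕ → B →L[ℂ] B),
    ¬ Tendsto (fun lam : ℝ => S.reduced lam (t / lam ^ 2) - ansatz m m' R G lam t)
      (𝓝[>] 0) (𝓝 0)

/-- The range of `P` is one-dimensional. -/
def Setting.RankOne : Prop :=
  ∃ e : B, e ≠ 0 ∧ ∀ x, ∃ a : ℂ, S.P x = a • e

/-- The problem's conclusion fails in the strongest way: for every `t > 0` the reduced dynamics at
time `t / lam ^ 2` has no limit as `lam → 0+`, and its difference from `u_t r` does not tend to `0`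
for any polynomial `r`, `G`; and the conclusion of the problem is false for every `n`. -/
def Setting.Fails : Prop :=
  (∀ t : ℝ, 0 < t → S.NoExpansionAt t ∧
    ¬ ∃ ℓ, Tendsto (fun lam : ℝ => S.reduced lam (t / lam ^ 2)) (𝓝[>] 0) (𝓝 ℓ)) ∧
  ∀ n, ¬ S.Conclusion n

/-- For one `lam` in `(0, lamSup)` the operators `U lam t`, `t ≥ 0`, are contractions. -/
def Setting.Contractive : Prop :=
  ∃ lam, 0 < lam ∧ lam < S.lamSup ∧ ∀ t, 0 ≤ t → ∀ x, ‖S.U lam t x‖ ≤ ‖x‖

/-- `L P = 0`. -/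
def Setting.LPZero : Prop :=
  ∀ x, ∃ h : S.P x ∈ S.L.domain, S.L ⟨S.P x, h⟩ = 0

end Defs

/-! ### diagonal unitary groups on `ℓ²` -/

section Diag

/-- the Hilbert space `ℓ²(ι)` -/
abbrev LL (ι : Type) : Type := lp (fun _ : ι => ℂ) 2

variable {ι : Type}

theorem two_pos' : (0 : ℝ) < (2 : ENNReal).toReal := by norm_num

theorem mem_of_sq {f : ι → ℂ} (h : Summable fun i => ‖f i‖ ^ 2) : Memℓp f 2 := by
  rw [memℓp_gen_iff two_pos']
  refine h.congr fun i => ?_
  rw [ENNReal.toReal_ofNat, ← Real.rpow_natCast]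
  norm_num

theorem sq_summable (f : LL ι) : Summable fun i => ‖f i‖ ^ 2 := by
  have h := (memℓp_gen_iff two_pos').1 (lp.memℓp f)
  refine h.congr fun i => ?_
  rw [ENNReal.toReal_ofNat, ← Real.rpow_natCast]
  norm_num

theorem norm_sq (f : LL ι) : ‖f‖ ^ 2 = ∑' i, ‖f i‖ ^ 2 := by
  have h := lp.norm_rpow_eq_tsum two_pos' f
  rw [ENNReal.toReal_ofNat] at h
  have h2 : ∀ x : ℝ, x ^ (2 : ℝ) = x ^ 2 := fun x => by
    rw [← Real.rpow_natCast]
    norm_num
  simp only [h2] at h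
  exact h

/-- the phase factors -/
noncomputable def ep (ω : ι → ℝ) (a : ℝ) (i : ι) : ℂ :=
  Complex.exp (((a * ω i : ℝ) : ℂ) * Complex.I)

theorem norm_ep (ω : ι → ℝ) (a : ℝ) (i : ι) : ‖ep ω a i‖ = 1 := Complex.norm_exp_ofReal_mul_I _

theorem ep_zero (ω : ι → ℝ) (i : ι) : ep ω 0 i = 1 := by simp [ep]

theorem ep_add (ω : ι → ℝ) (a b : ℝ) (i : ι) : ep ω (a + b) i = ep ω a i * ep ω b i := by
  unfold ep
  rw [← Complex.exp_add]
  congr 1
  push_cast
  ring

theorem ep_cont (ω : ι → ℝ) (i : ι) : Continuous fun a => ep ω a i := by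
  unfold ep
  fun_prop

theorem ep_deriv (ω : ι → ℝ) (i : ι) :
    HasDerivAt (fun a => ep ω a i) ((ω i : ℂ) * Complex.I) 0 := by
  have h1 : HasDerivAt (fun a : ℝ => ((a * ω i : ℝ) : ℂ) * Complex.I) ((ω i : ℂ) * Complex.I) 0 := by
    have h2 : HasDerivAt (fun a : ℝ => a * ω i) (ω i) 0 := by
      simpa using (hasDerivAt_id (0 : ℝ)).mul_const (ω i)
    exact (h2.ofReal_comp).mul_const _
  have h3 := h1.cexp
  simpa [ep] using h3

theorem norm_ep_sub (ω : ι → ℝ) (a : ℝ) (i : ι) : ‖ep ω a i - 1‖ ≤ |a| * |ω i| := by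
  unfold ep
  have h := Real.norm_exp_I_mul_ofReal_sub_one_le (x := a * ω i)
  rw [mul_comm Complex.I] at h
  rw [← abs_mul]
  exact h

/-- the diagonal operator of phase factors -/
noncomputable def trf (ω : ι → ℝ) (a : ℝ) (f : LL ι) : LL ι :=
  ⟨fun i => ep ω a i * f i, mem_of_sq (by
    refine (sq_summable f).congr fun i => ?_
    rw [norm_mul, norm_ep, one_mul])⟩

theorem trf_apply (ω : ι → ℝ) (a : ℝ) (f : LL ι) (i : ι) : trf ω a f i = ep ω a i * f i := rfl

theorem norm_trf (ω : ι → ℝ) (a : ℝ) (f : LL ι) : ‖trf ω a f‖ = ‖f‖ := by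
  have h : ‖trf ω a f‖ ^ 2 = ‖f‖ ^ 2 := by
    rw [norm_sq, norm_sq]
    refine tsum_congr fun i => ?_
    rw [trf_apply, norm_mul, norm_ep, one_mul]
  exact (sq_eq_sq₀ (norm_nonneg _) (norm_nonneg _)).1 h

/-- the diagonal operator as a bounded operator -/
noncomputable def tr (ω : ι → ℝ) (a : ℝ) : LL ι →L[ℂ] LL ι :=
  LinearMap.mkContinuous
    { toFun := trf ω a
      map_add' := fun x y => by
        ext i
        rw [lp.coeFn_add, Pi.add_apply, trf_apply, trf_apply, trf_apply, lp.coeFn_add, Pi.add_apply,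
          mul_add]
      map_smul' := fun c x => by
        ext i
        rw [RingHom.id_apply, lp.coeFn_smul, Pi.smul_apply, trf_apply, trf_apply, lp.coeFn_smul,
          Pi.smul_apply, smul_eq_mul, smul_eq_mul]
        ring } 1 (fun x => by rw [one_mul]; exact (norm_trf ω a x).le)

variable (ω : ι → ℝ)

theorem tr_apply (a : ℝ) (f : LL ι) (i : ι) : tr ω a f i = ep ω a i * f i := rfl

theorem tr_zero : tr ω 0 = 1 := by
  ext f i
  rw [tr_apply, ep_zero, one_mul]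
  rfl

theorem tr_add (a b : ℝ) : tr ω (a + b) = tr ω a * tr ω b := by
  ext f i
  have h0 : (tr ω a * tr ω b) f = tr ω a (tr ω b f) := rfl
  rw [h0, tr_apply, tr_apply, tr_apply, ep_add, mul_assoc]

theorem norm_tr (a : ℝ) (f : LL ι) : ‖tr ω a f‖ = ‖f‖ := norm_trf ω a f

theorem tr_surj (a : ℝ) : Function.Surjective (tr ω a) := by
  intro f
  refine ⟨tr ω (-a) f, ?_⟩
  have : tr ω (a + -a) = tr ω a * tr ω (-a) := tr_add _ _ _
  rw [add_neg_cancel, tr_zero] at this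
  exact (congrArg (fun T : LL ι →L[ℂ] LL ι => T f) this).symm

/-- dominated convergence in `ℓ²` -/
theorem tendsto_zero_of {α : Type} {l : Filter α} (G : α → LL ι) (bound : ι → ℝ)
    (hb : Summable bound) (h1 : ∀ᶠ h in l, ∀ i, ‖G h i‖ ^ 2 ≤ bound i)
    (h2 : ∀ i, Tendsto (fun h => G h i) l (𝓝 0)) : Tendsto G l (𝓝 0) := by
  rw [tendsto_zero_iff_norm_tendsto_zero]
  have h3 : Tendsto (fun h => ‖G h‖ ^ 2) l (𝓝 0) := by
    have h4 : Tendsto (fun h => ∑' i, ‖G h i‖ ^ 2) l (𝓝 (∑' _ : ι, (0 : ℝ))) := by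
      refine tendsto_tsum_of_dominated_convergence hb (fun i => ?_) ?_
      · have h5 := ((h2 i).norm).pow 2
        simpa using h5
      · filter_upwards [h1] with h hh i
        rw [Real.norm_of_nonneg (by positivity)]
        exact hh i
    rw [tsum_zero] at h4
    refine h4.congr fun h => ?_
    rw [norm_sq]
  have h6 := (Real.continuous_sqrt.tendsto 0).comp h3
  rw [Real.sqrt_zero] at h6
  refine h6.congr fun h => ?_
  simp only [Function.comp]
  rw [Real.sqrt_sq (norm_nonneg _)]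

theorem tr_cont (f : LL ι) : Continuous fun a : ℝ => tr ω a f := by
  rw [continuous_iff_continuousAt]
  intro a
  have h : Tendsto (fun b => tr ω b f - tr ω a f) (𝓝 a) (𝓝 0) := by
    refine tendsto_zero_of _ (fun i => 4 * ‖f i‖ ^ 2) ((sq_summable f).mul_left 4)
      (Eventually.of_forall fun b i => ?_) (fun i => ?_)
    · have e : (tr ω b f - tr ω a f) i = (ep ω b i - ep ω a i) * f i := by
        rw [lp.coeFn_sub, Pi.sub_apply, tr_apply, tr_apply]
        ring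
      rw [e, norm_mul, mul_pow]
      have h1 : ‖ep ω b i - ep ω a i‖ ≤ 2 := by
        refine (norm_sub_le _ _).trans ?_
        rw [norm_ep, norm_ep]
        norm_num
      have h2 : ‖ep ω b i - ep ω a i‖ ^ 2 ≤ 4 := by
        nlinarith [norm_nonneg (ep ω b i - ep ω a i)]
      exact mul_le_mul_of_nonneg_right h2 (by positivity)
    · have e : (fun b => (tr ω b f - tr ω a f) i) = fun b => (ep ω b i - ep ω a i) * f i := by
        funext b
        rw [lp.coeFn_sub, Pi.sub_apply, tr_apply, tr_apply]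
        ring
      rw [e]
      have h1 : Tendsto (fun b => (ep ω b i - ep ω a i) * f i) (𝓝 a)
          (𝓝 ((ep ω a i - ep ω a i) * f i)) :=
        (((ep_cont ω i).tendsto a).sub_const _).mul_const _
      rw [sub_self, zero_mul] at h1
      exact h1
  have h' := h.add_const (tr ω a f)
  rw [zero_add] at h'
  exact h'.congr fun b => by rw [sub_add_cancel]

/-- `y` is the derivative of `tr h x` at `h = 0+` -/
def Der (x y : LL ι) : Prop :=
  Tendsto (fun h : ℝ => (h : ℂ)⁻¹ • (tr ω h x - x)) (𝓝[>] 0) (𝓝 y)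

variable {ω}

theorem Der.unique {x y z : LL ι} (h1 : Der ω x y) (h2 : Der ω x z) : y = z :=
  tendsto_nhds_unique h1 h2

theorem Der.add {x y x' y' : LL ι} (h1 : Der ω x y) (h2 : Der ω x' y') :
    Der ω (x + x') (y + y') := by
  refine (Tendsto.add h1 h2).congr fun h => ?_
  rw [map_add, ← smul_add]
  congr 1
  abel

theorem Der.smul {x y : LL ι} (h1 : Der ω x y) (c : ℂ) : Der ω (c • x) (c • y) := by
  refine (Tendsto.const_smul h1 c).congr fun h => ?_
  rw [map_smul, smul_comm, smul_sub]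

theorem Der.zero : Der ω (0 : LL ι) 0 := by
  unfold Der
  simp

variable (ω)

/-- the generator of the group -/
noncomputable def gen : LL ι →ₗ.[ℂ] LL ι where
  domain :=
    { carrier := {x | ∃ y, Der ω x y}
      add_mem' := fun ⟨y, hy⟩ ⟨z, hz⟩ => ⟨y + z, hy.add hz⟩
      zero_mem' := ⟨0, Der.zero⟩
      smul_mem' := fun c _ ⟨y, hy⟩ => ⟨c • y, hy.smul c⟩ }
  toFun :=
    { toFun := fun x => Classical.choose x.2
      map_add' := fun x y => (Classical.choose_spec (x + y).2).unique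
        ((Classical.choose_spec x.2).add (Classical.choose_spec y.2))
      map_smul' := fun c x => (Classical.choose_spec (c • x).2).unique
        ((Classical.choose_spec x.2).smul c) }

theorem mem_gen (x : LL ι) : x ∈ (gen ω).domain ↔ ∃ y, Der ω x y := Iff.rfl

theorem gen_spec (x : (gen ω).domain) : Der ω x (gen ω x) := Classical.choose_spec x.2

variable {ω}

theorem gen_eq {x y : LL ι} (h : Der ω x y) : ∃ hx : x ∈ (gen ω).domain, gen ω ⟨x, hx⟩ = y :=
  ⟨⟨y, h⟩, (gen_spec _ _).unique h⟩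

/-- change of speed -/
theorem der_scale {c : ℝ} (hc : 0 < c) (x y : LL ι) :
    Tendsto (fun h : ℝ => (h : ℂ)⁻¹ • (tr ω (c * h) x - x)) (𝓝[>] 0) (𝓝 ((c : ℂ) • y)) ↔
      Der ω x y := by
  have hc' : (c : ℂ) ≠ 0 := by exact_mod_cast hc.ne'
  have lim1 : ∀ b : ℝ, 0 < b → Tendsto (fun h : ℝ => b * h) (𝓝[>] 0) (𝓝[>] 0) := by
    intro b hb
    apply tendsto_nhdsWithin_of_tendsto_nhds_of_eventually_within
    · have : Tendsto (fun h : ℝ => b * h) (𝓝 0) (𝓝 (b * 0)) := (continuous_const_mul b).tendsto 0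
      rw [mul_zero] at this
      exact this.mono_left nhdsWithin_le_nhds
    · filter_upwards [self_mem_nhdsWithin] with h hh
      exact mul_pos hb hh
  constructor
  · intro h
    have h2 := (h.comp (lim1 c⁻¹ (inv_pos.2 hc))).const_smul ((c : ℂ)⁻¹)
    rw [smul_smul, inv_mul_cancel₀ hc', one_smul] at h2
    refine h2.congr fun s => ?_
    simp only [Function.comp]
    rw [mul_inv_cancel_left₀ hc.ne', smul_smul]
    congr 1
    push_cast
    rw [mul_inv, inv_inv, ← mul_assoc, inv_mul_cancel₀ hc', one_mul]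
  · intro h
    have h2 := (Tendsto.comp h (lim1 c hc)).const_smul (c : ℂ)
    refine h2.congr fun s => ?_
    simp only [Function.comp]
    rw [smul_smul]
    congr 1
    push_cast
    rw [mul_inv, ← mul_assoc, mul_inv_cancel₀ hc', one_mul]

/-- the action of the generator on vectors in its domain -/
theorem der_of {x y : LL ι} (h : ∀ i, y i = ((ω i : ℂ) * Complex.I) * x i) : Der ω x y := by
  have h0 : Tendsto (fun h : ℝ => (h : ℂ)⁻¹ • (tr ω h x - x) - y) (𝓝[>] 0) (𝓝 0) := by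
    have ee : ∀ (s : ℝ) (i : ι), ((s : ℂ)⁻¹ • (tr ω s x - x) - y) i =
        ((s : ℂ)⁻¹ * (ep ω s i - 1) - (ω i : ℂ) * Complex.I) * x i := by
      intro s i
      rw [lp.coeFn_sub, Pi.sub_apply, lp.coeFn_smul, Pi.smul_apply, lp.coeFn_sub, Pi.sub_apply,
        tr_apply, h i, smul_eq_mul]
      ring
    refine tendsto_zero_of _ (fun i => 4 * ‖y i‖ ^ 2) ((sq_summable y).mul_left 4) ?_ (fun i => ?_)
    · filter_upwards [self_mem_nhdsWithin] with s hs i
      have hs' : 0 < s := hs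
      rw [ee, norm_mul]
      have h1 : ‖(s : ℂ)⁻¹ * (ep ω s i - 1) - (ω i : ℂ) * Complex.I‖ ≤ 2 * |ω i| := by
        refine (norm_sub_le _ _).trans ?_
        have h2 : ‖(s : ℂ)⁻¹ * (ep ω s i - 1)‖ ≤ |ω i| := by
          rw [norm_mul, norm_inv, Complex.norm_real, Real.norm_of_nonneg hs'.le,
            inv_mul_le_iff₀ hs']
          have := norm_ep_sub ω s i
          rwa [abs_of_pos hs'] at this
        have h3 : ‖(ω i : ℂ) * Complex.I‖ = |ω i| := by
          rw [norm_mul, Complex.norm_I, mul_one, Complex.norm_real, Real.norm_eq_abs]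
        rw [h3]
        linarith
      have h4 : ‖y i‖ = |ω i| * ‖x i‖ := by
        rw [h i, norm_mul, norm_mul, Complex.norm_I, mul_one, Complex.norm_real, Real.norm_eq_abs]
      rw [h4]
      have h5 : ‖(s : ℂ)⁻¹ * (ep ω s i - 1) - (ω i : ℂ) * Complex.I‖ * ‖x i‖ ≤
          2 * |ω i| * ‖x i‖ := mul_le_mul_of_nonneg_right h1 (norm_nonneg _)
      calc _ ≤ (2 * |ω i| * ‖x i‖) ^ 2 := pow_le_pow_left₀ (by positivity) h5 2
        _ = 4 * (|ω i| * ‖x i‖) ^ 2 := by ring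
    · have h1 := (ep_deriv ω i).tendsto_slope_zero_right
      have h2 : Tendsto (fun s : ℝ => ((s : ℂ)⁻¹ * (ep ω s i - 1) - (ω i : ℂ) * Complex.I) * x i)
          (𝓝[>] 0) (𝓝 (((ω i : ℂ) * Complex.I - (ω i : ℂ) * Complex.I) * x i)) := by
        refine (Tendsto.sub_const ?_ _).mul_const _
        refine h1.congr fun s => ?_
        rw [zero_add, ep_zero, Complex.real_smul, Complex.ofReal_inv]
      rw [sub_self, zero_mul] at h2
      refine h2.congr fun s => ?_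
      rw [ee]
  have h' := h0.add_const y
  rw [zero_add] at h'
  exact h'.congr fun b => by rw [sub_add_cancel]

end Diag

/-! ### the examples -/

section Example

open scoped InnerProductSpace

/-- The data of an example: a diagonal unitary group, a sequence `φ k` with
`φ (k + 1) = i ω φ k`, and a vector `ψ` with `⟪ψ, φ 0⟫ = 1`, `⟪ψ, φ 1⟫ = 0`. -/
structure Data (ι : Type) where
  ω : ι → ℝ
  φ : ℕ → LL ι
  ψ : LL ι
  hφ : ∀ k i, φ (k + 1) i = ((ω i : ℂ) * Complex.I) * φ k i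
  h0 : ⟪ψ, φ 0⟫_ℂ = 1
  h1 : ⟪ψ, φ 1⟫_ℂ = 0

variable {ι : Type} (D : Data ι)

/-- the projection `P x = ⟪ψ, x⟫ φ₀` -/
noncomputable def PP : LL ι →L[ℂ] LL ι := (innerSL ℂ D.ψ).smulRight (D.φ 0)

theorem PP_apply (x : LL ι) : PP D x = ⟪D.ψ, x⟫_ℂ • D.φ 0 := rfl

theorem PP_PP : PP D * PP D = PP D := by
  ext1 x
  have h0 : (PP D * PP D) x = PP D (PP D x) := rfl
  rw [h0, PP_apply D x, map_smul, PP_apply D (D.φ 0), D.h0, one_smul]

theorem phi_ne : D.φ 0 ≠ 0 := by
  intro h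
  have := D.h0
  rw [h, inner_zero_right] at this
  exact zero_ne_one this

theorem PP_phi : PP D (D.φ 0) = D.φ 0 := by rw [PP_apply, D.h0, one_smul]

theorem PP_ne : PP D ≠ 0 := by
  intro h
  have h1 := PP_phi D
  rw [h] at h1
  exact phi_ne D h1.symm

theorem PP_norm_le : ‖PP D‖ ≤ ‖D.ψ‖ * ‖D.φ 0‖ := by
  refine ContinuousLinearMap.opNorm_le_bound _ (by positivity) fun x => ?_
  rw [PP_apply, norm_smul]
  have := norm_inner_le_norm (𝕜 := ℂ) D.ψ x
  nlinarith [norm_nonneg (D.φ 0)]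

theorem PP_fin : FiniteDimensional ℂ (LinearMap.range (PP D : LL ι →ₗ[ℂ] LL ι)) := by
  have h : LinearMap.range (PP D : LL ι →ₗ[ℂ] LL ι) ≤ Submodule.span ℂ {D.φ 0} := by
    rintro _ ⟨x, rfl⟩
    exact Submodule.mem_span_singleton.2 ⟨_, rfl⟩
  exact Submodule.finiteDimensional_of_le h

theorem tr_semigroup (ω : ι → ℝ) (lam : ℝ) : IsC0Semigroup (fun t => tr ω (lam * t)) where
  zero := by rw [mul_zero, tr_zero]
  add := by
    intro s t _ _
    rw [mul_add, tr_add]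
  cont := fun x => ((tr_cont ω x).comp (continuous_const_mul lam)).continuousOn

theorem phi_der (k : ℕ) : Der D.ω (D.φ k) (D.φ (k + 1)) := der_of (D.hφ k)

/-- the example as an instance of the setting of the problem -/
noncomputable def exm : Setting (LL ι) where
  P := PP D
  P_proj := PP_PP D
  P_fin := PP_fin D
  L0 := 0
  L := gen D.ω
  lamSup := 1
  lamSup_pos := one_pos
  U := fun lam t => tr D.ω (lam * t)
  semigroup := fun lam _ _ => tr_semigroup D.ω lam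
  generator_zero := by
    have h0 : ∀ x : LL ι,
        Tendsto (fun h : ℝ => (h : ℂ)⁻¹ • (tr D.ω (0 * h) x - x)) (𝓝[>] 0) (𝓝 0) := by
      intro x
      have : (fun h : ℝ => (h : ℂ)⁻¹ • (tr D.ω (0 * h) x - x)) = fun _ => 0 := by
        funext h
        rw [zero_mul, tr_zero, one_apply_eq_self, sub_self, smul_zero]
      rw [this]
      exact tendsto_const_nhds
    refine ⟨fun x => ⟨fun _ => ⟨0, h0 x⟩, fun _ => trivial⟩, fun x => ?_⟩
    exact h0 x
  generator := by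
    intro lam hlam _
    have hdom : ∀ x : LL ι, x ∈ ((0 : LL ι →ₗ.[ℂ] LL ι) + (lam : ℂ) • gen D.ω).domain ↔
        x ∈ (gen D.ω).domain := by
      intro x
      rw [LinearPMap.add_domain, LinearPMap.smul_domain, LinearPMap.zero_domain]
      simp
    refine ⟨fun x => ?_, fun x => ?_⟩
    · rw [hdom, mem_gen]
      constructor
      · rintro ⟨y, hy⟩
        exact ⟨_, (der_scale hlam x y).2 hy⟩
      · rintro ⟨y, hy⟩
        refine ⟨(lam : ℂ)⁻¹ • y, (der_scale hlam x _).1 ?_⟩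
        rw [smul_smul, mul_inv_cancel₀ (by exact_mod_cast hlam.ne'), one_smul]
        exact hy
    · have h1 := gen_spec D.ω ⟨x.1, (hdom x.1).1 x.2⟩
      have h2 := (der_scale hlam _ _).2 h1
      have h3 : ((0 : LL ι →ₗ.[ℂ] LL ι) + (lam : ℂ) • gen D.ω) x =
          (lam : ℂ) • gen D.ω ⟨x.1, (hdom x.1).1 x.2⟩ := by
        rw [LinearPMap.add_apply, LinearPMap.smul_apply]
        simp [-Complex.coe_smul]
      rw [h3]
      exact h2
  inv_range := by
    intro t _ x hx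
    simp only [zero_mul, tr_zero, one_apply_eq_self]
    exact hx
  inv_ker := by
    intro t _ x hx
    simp only [zero_mul, tr_zero, one_apply_eq_self]
    exact hx
  PLP := by
    intro x
    obtain ⟨h1, h2⟩ := gen_eq ((phi_der D 0).smul ⟪D.ψ, x⟫_ℂ)
    refine ⟨h1, ?_⟩
    have h3 : gen D.ω ⟨PP D x, h1⟩ = ⟪D.ψ, x⟫_ℂ • D.φ (0 + 1) := h2
    rw [h3, map_smul, PP_apply D (D.φ (0 + 1)), zero_add, D.h1, zero_smul, smul_zero]
  V := fun _ => ContinuousLinearEquiv.refl ℂ (LL ι)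
  V_nonneg := by
    intro t _
    rw [zero_mul, tr_zero]
    rfl
  V_neg := by
    intro t _
    rfl

theorem prod_F (ts : List ℝ) (x : LL ι) :
    (exm D).IsProd ts ((exm D).P x) (⟪D.ψ, x⟫_ℂ • D.φ ts.length) := by
  induction ts with
  | nil => rfl
  | cons t ts ih =>
    obtain ⟨h1, h2⟩ := gen_eq ((phi_der D ts.length).smul ⟪D.ψ, x⟫_ℂ)
    exact ⟨_, ih, h1, h2⟩

theorem isPProd_zero (ts : List ℝ) (h : ⟪D.ψ, D.φ ts.length⟫_ℂ = 0) : (exm D).IsPProd ts 0 := by
  intro x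
  refine ⟨_, prod_F D ts x, ?_⟩
  have h2 : (exm D).P (⟪D.ψ, x⟫_ℂ • D.φ ts.length) = 0 := by
    have h3 : PP D (⟪D.ψ, x⟫_ℂ • D.φ ts.length) = 0 := by
      rw [map_smul, PP_apply D (D.φ ts.length), h, zero_smul, smul_zero]
    exact h3
  rw [h2]
  rfl

theorem hypothesis_of {n : ℕ} (h : ∀ k, 1 ≤ k → k ≤ n + 1 → ⟪D.ψ, D.φ k⟫_ℂ = 0) :
    (exm D).Hypothesis n := by
  intro k hk hk2
  refine ⟨fun _ => 0, fun τ => isPProd_zero D _ ?_, fun t _ => ?_⟩
  · rw [List.length_ofFn]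
    exact h k hk hk2
  · simp

/-- the scalar function describing the reduced dynamics -/
noncomputable def gg (s : ℝ) : ℂ := ⟪D.ψ, tr D.ω s (D.φ 0)⟫_ℂ

theorem reduced_eq (lam s : ℝ) : (exm D).reduced lam s = gg D (lam * s) • PP D := by
  ext1 x
  have h0 : (exm D).reduced lam s x = PP D (tr D.ω (lam * s) (PP D x)) := rfl
  rw [h0, PP_apply D x, map_smul, map_smul, PP_apply D (tr D.ω (lam * s) (D.φ 0))]
  have h1 : (gg D (lam * s) • PP D) x = gg D (lam * s) • PP D x := rfl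
  rw [h1, PP_apply D x, smul_comm]
  rfl

theorem ansatz_tendsto (m m' : ℕ) (R G : ℕ → LL ι →L[ℂ] LL ι) (t : ℝ) :
    Tendsto (fun lam : ℝ => ansatz m m' R G lam t) (𝓝[>] 0) (𝓝 (ansatz m m' R G 0 t)) := by
  have h : Continuous fun lam : ℝ => ansatz m m' R G lam t := by
    unfold ansatz
    let _ : NormedAlgebra ℚ (LL ι →L[ℂ] LL ι) := NormedAlgebra.restrictScalars ℚ ℂ _
    apply Continuous.mul
    · apply NormedSpace.exp_continuous.comp
      fun_prop
    · fun_prop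
  exact (h.tendsto 0).mono_left nhdsWithin_le_nhds

/-- two sequences of times tending to infinity along which the scalar function has different
limits -/
def TwoLimits : Prop :=
  ∃ (a b : ℂ) (u v : ℕ → ℝ), a ≠ b ∧ Tendsto u atTop atTop ∧ Tendsto v atTop atTop ∧
    Tendsto (fun j => gg D (u j)) atTop (𝓝 a) ∧ Tendsto (fun j => gg D (v j)) atTop (𝓝 b)

theorem no_limit (hD : TwoLimits D) {t : ℝ} (ht : 0 < t) (ℓ : LL ι →L[ℂ] LL ι) :
    ¬ Tendsto (fun lam : ℝ => (exm D).reduced lam (t / lam ^ 2)) (𝓝[>] 0) (𝓝 ℓ) := by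
  intro h
  obtain ⟨a, b, u, v, hab, hu, hv, hga, hgb⟩ := hD
  have key : ∀ (c : ℂ) (w : ℕ → ℝ), Tendsto w atTop atTop →
      Tendsto (fun j => gg D (w j)) atTop (𝓝 c) → c • PP D = ℓ := by
    intro c w hw hc
    have h1 : Tendsto (fun j => t / w j) atTop (𝓝[>] 0) := by
      apply tendsto_nhdsWithin_of_tendsto_nhds_of_eventually_within
      · exact hw.const_div_atTop t
      · filter_upwards [hw.eventually_gt_atTop 0] with j hj
        exact div_pos ht hj
    have h2 := h.comp h1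
    have h3 : Tendsto (fun j => gg D (w j) • PP D) atTop (𝓝 (c • PP D)) := hc.smul_const _
    refine tendsto_nhds_unique h3 (h2.congr' ?_)
    filter_upwards [hw.eventually_gt_atTop 0] with j hj
    simp only [Function.comp]
    rw [reduced_eq]
    congr 2
    field_simp
  have e1 := key a u hu hga
  have e2 := key b v hv hgb
  rw [← e2, ← sub_eq_zero, ← sub_smul, smul_eq_zero, sub_eq_zero] at e1
  rcases e1 with e1 | e1
  · exact hab e1
  · exact PP_ne D e1

theorem no_expansion (hD : TwoLimits D) {t : ℝ} (ht : 0 < t) : (exm D).NoExpansionAt t := by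
  intro m m' R G h
  have h1 := h.add (ansatz_tendsto m m' R G t)
  rw [zero_add] at h1
  refine no_limit D hD ht _ (h1.congr fun lam => ?_)
  rw [sub_add_cancel]

theorem no_conclusion (hD : TwoLimits D) (n : ℕ) : ¬ (exm D).Conclusion n := by
  rintro ⟨m, m', R, G, _, _, h⟩
  refine no_expansion D hD one_pos m m' R G ?_
  refine (h 1 one_pos).trans_tendsto ?_
  have h1 : Tendsto (fun lam : ℝ => lam ^ (2 * n + 2)) (𝓝 0) (𝓝 (0 ^ (2 * n + 2))) :=
    (continuous_pow _).tendsto 0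
  rw [zero_pow (by omega)] at h1
  exact h1.mono_left nhdsWithin_le_nhds

end Example

/-! ### the infinite-dimensional example -/

section Concrete

open scoped InnerProductSpace

theorem hasSum_opt {E : Type} [NormedAddCommGroup E] {f : Option ℤ → E} {s : E}
    (h : HasSum (fun m => f (some m)) s) : HasSum f (f none + s) := by
  have h1 : HasSum (fun i : Option ℤ => if i = none then f none else 0) (f none) :=
    hasSum_ite_eq none (f none)
  have h2 : HasSum (fun i : Option ℤ => if i = none then 0 else f i) s := by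
    rw [← Function.Injective.hasSum_iff (Option.some_injective ℤ)]
    · exact h
    · intro x hx
      cases x with
      | none => rfl
      | some m => exact absurd ⟨m, rfl⟩ hx
  refine (h1.add h2).congr_fun ?_
  intro i
  by_cases hi : i = none
  · subst hi
    simp
  · simp [hi]

theorem summ (c : ℤ) : Summable fun m : ℤ => (2 : ℝ) ^ (c * m - 2 * (m * m)) := by
  have h0 : Summable fun m : ℤ => (2 : ℝ) ^ (-|m|) := by
    have hg : Summable fun n : ℕ => ((1 : ℝ) / 2) ^ n := summable_geometric_two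
    refine Summable.of_nat_of_neg (hg.congr fun n => ?_) (hg.congr fun n => ?_)
    · rw [Nat.abs_cast, zpow_neg, zpow_natCast, one_div, inv_pow]
    · rw [abs_neg, Nat.abs_cast, zpow_neg, zpow_natCast, one_div, inv_pow]
  refine Summable.of_nonneg_of_le (fun m => by positivity) (fun m => ?_)
    (h0.mul_left ((2 : ℝ) ^ ((|c| + 1) * (|c| + 1))))
  rw [← zpow_add₀ (by norm_num : (2 : ℝ) ≠ 0)]
  refine zpow_le_zpow_right₀ (by norm_num) ?_
  have h1 : c * m ≤ |c| * |m| := by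
    rw [← abs_mul]
    exact le_abs_self _
  have h2 : m * m = |m| * |m| := (abs_mul_abs_self m).symm
  nlinarith [sq_nonneg (2 * |m| - (|c| + 1)), abs_nonneg m, abs_nonneg c, sq_nonneg |m|]

/-- the terms of the moment sums -/
noncomputable def mt (k : ℤ) (m : ℤ) : ℝ := (-1) ^ m * 2 ^ ((4 * k + 2) * m - 2 * (m * m))

theorem abs_mt (k m : ℤ) : ‖mt k m‖ = 2 ^ ((4 * k + 2) * m - 2 * (m * m)) := by
  unfold mt
  rw [norm_mul, norm_zpow, norm_neg, norm_one, one_zpow, one_mul]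
  exact Real.norm_of_nonneg (by positivity)

theorem summable_mt (k : ℤ) : Summable (mt k) := by
  refine Summable.of_norm ?_
  simp only [abs_mt]
  exact summ _

theorem mt_refl (k m : ℤ) : mt k (2 * k + 1 - m) = -mt k m := by
  unfold mt
  have h1 : (-1 : ℝ) ^ (2 * k + 1 - m) = -(-1) ^ m := by
    have e : 2 * k + 1 - m = 2 * (k - m) + 1 + m := by ring
    rw [e, zpow_add₀ (by norm_num), zpow_add₀ (by norm_num), zpow_mul]
    norm_num
  have h2 : (4 * k + 2) * (2 * k + 1 - m) - 2 * ((2 * k + 1 - m) * (2 * k + 1 - m)) =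
      (4 * k + 2) * m - 2 * (m * m) := by ring
  rw [h1, h2]
  ring

theorem tsum_mt (k : ℤ) : ∑' m, mt k m = 0 := by
  have h1 := (Equiv.subLeft (2 * k + 1)).tsum_eq (mt k)
  simp only [Equiv.subLeft_apply, mt_refl, tsum_neg] at h1
  linarith

theorem hasSum_mt (k : ℤ) : HasSum (mt k) 0 := by
  rw [← tsum_mt k]
  exact (summable_mt k).hasSum

/-- the weights -/
noncomputable def ww (m : ℤ) : ℝ := 2 ^ (m - m * m)

theorem ww_sq (m : ℤ) : ww m * ww m = 2 ^ (2 * m - 2 * (m * m)) := by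
  unfold ww
  rw [← zpow_add₀ (by norm_num : (2 : ℝ) ≠ 0)]
  congr 1
  ring

theorem mt_eq (k : ℕ) (m : ℤ) : mt k m = (-1) ^ m * ((16 : ℝ) ^ m) ^ k * (ww m * ww m) := by
  rw [ww_sq]
  unfold mt
  have h1 : ((16 : ℝ) ^ m) ^ k = 2 ^ (4 * k * m) := by
    have h16 : (16 : ℝ) = 2 ^ (4 : ℤ) := by norm_num
    rw [h16, ← zpow_mul, ← zpow_natCast, ← zpow_mul]
    congr 1
    ring
  rw [h1, mul_assoc, ← zpow_add₀ (by norm_num : (2 : ℝ) ≠ 0)]
  congr 2
  ring

/-- the frequencies -/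
noncomputable def om (i : Option ℤ) : ℝ := i.elim 0 fun m => 16 ^ m

/-- coordinates of the first vector -/
noncomputable def vf (η : ℝ) (i : Option ℤ) : ℝ := i.elim 1 fun m => η * ww m

/-- coordinates of the second vector -/
noncomputable def vp (η : ℝ) (i : Option ℤ) : ℝ := i.elim 1 fun m => η * ((-1) ^ m * ww m)

theorem summ_ww : Summable fun m : ℤ => ww m * ww m := by
  refine (summ 2).congr fun m => ?_
  rw [ww_sq]

theorem hasSum_vf (η : ℝ) : HasSum (fun i => ‖(vf η i : ℂ)‖ ^ 2) (1 + η ^ 2 * ∑' m, ww m * ww m) := by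
  have h := hasSum_opt (f := fun i => ‖(vf η i : ℂ)‖ ^ 2) (s := η ^ 2 * ∑' m, ww m * ww m) (by
    refine (summ_ww.hasSum.mul_left (η ^ 2)).congr_fun fun m => ?_
    rw [Complex.norm_real, Real.norm_eq_abs, sq_abs]
    show (η * ww m) ^ 2 = _
    ring)
  simpa [vf] using h

theorem hasSum_vp (η : ℝ) : HasSum (fun i => ‖(vp η i : ℂ)‖ ^ 2) (1 + η ^ 2 * ∑' m, ww m * ww m) := by
  have h := hasSum_opt (f := fun i => ‖(vp η i : ℂ)‖ ^ 2) (s := η ^ 2 * ∑' m, ww m * ww m) (by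
    refine (summ_ww.hasSum.mul_left (η ^ 2)).congr_fun fun m => ?_
    rw [Complex.norm_real, Real.norm_eq_abs, sq_abs]
    show (η * ((-1) ^ m * ww m)) ^ 2 = _
    have : ((-1 : ℝ) ^ m) ^ 2 = 1 := by
      rw [← zpow_natCast, ← zpow_mul, mul_comm, zpow_mul]
      norm_num
    rw [mul_pow, mul_pow, this]
    ring)
  simpa [vp] using h

theorem mem_phi (η : ℝ) (k : ℕ) :
    Memℓp (fun i : Option ℤ => ((om i : ℂ) * Complex.I) ^ k * (vf η i : ℂ)) 2 := by
  refine mem_of_sq ?_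
  have h := hasSum_opt (f := fun i => ‖((om i : ℂ) * Complex.I) ^ k * (vf η i : ℂ)‖ ^ 2)
    (s := η ^ 2 * ∑' m : ℤ, 2 ^ ((8 * k + 2) * m - 2 * (m * m))) (by
    refine ((summ _).hasSum.mul_left (η ^ 2)).congr_fun fun m => ?_
    rw [norm_mul, norm_pow, norm_mul, Complex.norm_I, mul_one, Complex.norm_real,
      Complex.norm_real, Real.norm_eq_abs, Real.norm_eq_abs, mul_pow, sq_abs]
    show (|(16 : ℝ) ^ m| ^ k) ^ 2 * (η * ww m) ^ 2 = _
    have h16 : (|(16 : ℝ) ^ m| ^ k) ^ 2 = 2 ^ (8 * k * m) := by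
      have h16 : (16 : ℝ) = 2 ^ (4 : ℤ) := by norm_num
      rw [abs_of_pos (by positivity), h16, ← zpow_mul, ← pow_mul, ← zpow_natCast, ← zpow_mul]
      congr 1
      push_cast
      ring
    have h2 : (η * ww m) ^ 2 = η ^ 2 * (ww m * ww m) := by ring
    rw [h16, h2, ww_sq]
    have h3 : (2 : ℝ) ^ ((8 * (k : ℤ) + 2) * m - 2 * (m * m)) =
        2 ^ (8 * (k : ℤ) * m) * 2 ^ (2 * m - 2 * (m * m)) := by
      rw [← zpow_add₀ (by norm_num : (2 : ℝ) ≠ 0)]
      congr 1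
      ring
    rw [h3]
    ring)
  exact h.summable

/-- the vectors -/
noncomputable def phi (η : ℝ) (k : ℕ) : LL (Option ℤ) :=
  ⟨fun i => ((om i : ℂ) * Complex.I) ^ k * (vf η i : ℂ), mem_phi η k⟩

/-- the second vector -/
noncomputable def psi (η : ℝ) : LL (Option ℤ) :=
  ⟨fun i => (vp η i : ℂ), mem_of_sq (hasSum_vp η).summable⟩

theorem phi_apply (η : ℝ) (k : ℕ) (i : Option ℤ) :
    phi η k i = ((om i : ℂ) * Complex.I) ^ k * (vf η i : ℂ) := rfl

theorem psi_apply (η : ℝ) (i : Option ℤ) : psi η i = (vp η i : ℂ) := rfl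

theorem inner_term (η : ℝ) (x : ℂ) (i : Option ℤ) : ⟪psi η i, x⟫_ℂ = x * (vp η i : ℂ) := by
  rw [RCLike.inner_apply, psi_apply, Complex.conj_ofReal]

theorem inner_phi (η : ℝ) (k : ℕ) : ⟪psi η, phi η k⟫_ℂ = if k = 0 then 1 else 0 := by
  have h := hasSum_opt (f := fun i => ⟪psi η i, phi η k i⟫_ℂ) (s := 0) (by
    have h1 := ((Complex.hasSum_ofReal.2 (hasSum_mt k)).mul_left ((η : ℂ) ^ 2 * Complex.I ^ k))
    rw [Complex.ofReal_zero, mul_zero] at h1
    refine h1.congr_fun fun m => ?_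
    rw [inner_term, phi_apply, mt_eq]
    show (((16 ^ m : ℝ) : ℂ) * Complex.I) ^ k * ((η * ww m : ℝ) : ℂ) *
      ((η * ((-1) ^ m * ww m) : ℝ) : ℂ) = _
    push_cast
    rw [mul_pow]
    ring)
  have h2 := (lp.hasSum_inner (𝕜 := ℂ) (psi η) (phi η k)).unique h
  rw [h2, inner_term, phi_apply]
  show (((0 : ℝ) : ℂ) * Complex.I) ^ k * ((1 : ℝ) : ℂ) * ((1 : ℝ) : ℂ) + 0 = _
  by_cases hk : k = 0
  · simp [hk]
  · simp [hk]

/-- the data of the example -/
noncomputable def dat (η : ℝ) : Data (Option ℤ) where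
  ω := om
  φ := phi η
  ψ := psi η
  hφ := fun k i => by rw [phi_apply, phi_apply, pow_succ]; ring
  h0 := by rw [inner_phi]; simp
  h1 := by rw [inner_phi]; simp

theorem norm_P_le (η : ℝ) : ‖PP (dat η)‖ ≤ 1 + η ^ 2 * ∑' m, ww m * ww m := by
  have h1 : ‖phi η 0‖ ^ 2 = 1 + η ^ 2 * ∑' m, ww m * ww m := by
    rw [norm_sq, ← (hasSum_vf η).tsum_eq]
    refine tsum_congr fun i => ?_
    rw [phi_apply, pow_zero, one_mul]
  have h2 : ‖psi η‖ ^ 2 = 1 + η ^ 2 * ∑' m, ww m * ww m := by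
    rw [norm_sq, ← (hasSum_vp η).tsum_eq]
    rfl
  have h3 := PP_norm_le (dat η)
  have h4 : ‖(dat η).ψ‖ * ‖(dat η).φ 0‖ = ‖psi η‖ * ‖phi η 0‖ := rfl
  rw [h4] at h3
  nlinarith [sq_nonneg (‖psi η‖ - ‖phi η 0‖)]

theorem tr_two_pi (x : LL (Option ℤ)) :
    Tendsto (fun j : ℕ => tr om (2 * Real.pi * 16 ^ j) x) atTop (𝓝 x) := by
  have h0 : Tendsto (fun j : ℕ => tr om (2 * Real.pi * 16 ^ j) x - x) atTop (𝓝 0) := by
    have ee : ∀ (s : ℝ) (i : Option ℤ), (tr om s x - x) i = (ep om s i - 1) * x i := by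
      intro s i
      rw [lp.coeFn_sub, Pi.sub_apply, tr_apply]
      ring
    refine tendsto_zero_of _ (fun i => 4 * ‖x i‖ ^ 2) ((sq_summable x).mul_left 4)
      (Eventually.of_forall fun j i => ?_) (fun i => ?_)
    · rw [ee, norm_mul, mul_pow]
      have h1 : ‖ep om (2 * Real.pi * 16 ^ j) i - 1‖ ≤ 2 := by
        refine (norm_sub_le _ _).trans ?_
        rw [norm_ep, norm_one]
        norm_num
      have h2 : ‖ep om (2 * Real.pi * 16 ^ j) i - 1‖ ^ 2 ≤ 4 := by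
        nlinarith [norm_nonneg (ep om (2 * Real.pi * 16 ^ j) i - 1)]
      exact mul_le_mul_of_nonneg_right h2 (by positivity)
    · have h1 : ∀ᶠ j : ℕ in atTop, ep om (2 * Real.pi * 16 ^ j) i = 1 := by
        cases i with
        | none =>
          refine Eventually.of_forall fun j => ?_
          unfold ep
          simp [om]
        | some m =>
          filter_upwards [eventually_ge_atTop m.natAbs] with j hj
          obtain ⟨l, hl⟩ : ∃ l : ℕ, (j : ℤ) + m = l := ⟨((j : ℤ) + m).toNat, by omega⟩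
          have h2 : (2 * Real.pi * 16 ^ j) * om (some m) = ((16 ^ l : ℕ) : ℝ) * (2 * Real.pi) := by
            show (2 * Real.pi * 16 ^ j) * (16 : ℝ) ^ m = _
            have h3 : (16 : ℝ) ^ j * 16 ^ m = 16 ^ l := by
              rw [← zpow_natCast (16 : ℝ) j, ← zpow_add₀ (by norm_num), hl, zpow_natCast]
            push_cast
            rw [← h3]
            ring
          unfold ep
          rw [h2, Complex.exp_eq_one_iff]
          refine ⟨((16 ^ l : ℕ) : ℤ), ?_⟩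
          push_cast
          ring
      refine (tendsto_const_nhds (x := (0 : ℂ))).congr' ?_
      filter_upwards [h1] with j hj
      rw [ee, hj, sub_self, zero_mul]
  have h' := h0.add_const x
  rw [zero_add] at h'
  exact h'.congr fun b => by rw [sub_add_cancel]

theorem gg_tendsto (η s : ℝ) :
    Tendsto (fun j : ℕ => gg (dat η) (2 * Real.pi * 16 ^ j + s)) atTop (𝓝 (gg (dat η) s)) := by
  have h1 := tr_two_pi (tr om s (phi η 0))
  have h2 : Tendsto (fun j : ℕ => ⟪psi η, tr om (2 * Real.pi * 16 ^ j) (tr om s (phi η 0))⟫_ℂ) atTop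
      (𝓝 ⟪psi η, tr om s (phi η 0)⟫_ℂ) := tendsto_const_nhds.inner h1
  refine h2.congr fun j => ?_
  unfold gg
  show _ = ⟪psi η, tr om (2 * Real.pi * 16 ^ j + s) (phi η 0)⟫_ℂ
  rw [tr_add]
  rfl

theorem gg_zero (η : ℝ) : gg (dat η) 0 = 1 := by
  unfold gg
  rw [tr_zero]
  exact (dat η).h0

theorem hasSum_gg (η s : ℝ) :
    HasSum (fun m : ℤ => η ^ 2 * (mt 0 m * Real.cos (16 ^ m * s))) ((gg (dat η) s).re - 1) := by
  have h := (lp.hasSum_inner (𝕜 := ℂ) (psi η) (tr om s (phi η 0)))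
  have h1 : Summable fun m : ℤ => ⟪psi η (some m), tr om s (phi η 0) (some m)⟫_ℂ :=
    h.summable.comp_injective (Option.some_injective ℤ)
  have h2 := h.unique (hasSum_opt (f := fun i => ⟪psi η i, tr om s (phi η 0) i⟫_ℂ) h1.hasSum)
  have h3 : gg (dat η) s = 1 + ∑' m : ℤ, ⟪psi η (some m), tr om s (phi η 0) (some m)⟫_ℂ := by
    have h4 : gg (dat η) s = ⟪psi η, tr om s (phi η 0)⟫_ℂ := rfl
    rw [h4, h2]
    congr 1
    rw [inner_term, tr_apply, phi_apply, pow_zero, one_mul]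
    unfold ep
    show Complex.exp (((s * 0 : ℝ) : ℂ) * Complex.I) * ((1 : ℝ) : ℂ) * ((1 : ℝ) : ℂ) = 1
    simp
  have h5 := Complex.hasSum_re h1.hasSum
  have h6 : (gg (dat η) s).re - 1 =
      (∑' m : ℤ, ⟪psi η (some m), tr om s (phi η 0) (some m)⟫_ℂ).re := by
    rw [h3, Complex.add_re, Complex.one_re]
    ring
  rw [h6]
  refine h5.congr_fun fun m => ?_
  rw [inner_term, tr_apply, phi_apply, pow_zero, one_mul]
  unfold ep
  have h7 : Complex.exp (((s * om (some m) : ℝ) : ℂ) * Complex.I) * ((vf η (some m) : ℝ) : ℂ) *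
      ((vp η (some m) : ℝ) : ℂ) =
      ((vf η (some m) * vp η (some m) : ℝ) : ℂ) *
        Complex.exp (((s * om (some m) : ℝ) : ℂ) * Complex.I) := by
    push_cast
    ring
  rw [h7, Complex.re_ofReal_mul, Complex.exp_ofReal_mul_I_re]
  have h8 := mt_eq 0 m
  rw [pow_zero, mul_one] at h8
  have h9 : mt 0 m = (-1) ^ m * (ww m * ww m) := h8
  rw [h9]
  show _ = (η * ww m) * (η * ((-1) ^ m * ww m)) * Real.cos (s * 16 ^ m)
  rw [mul_comm s]
  ring

theorem gg_pi_ne {η : ℝ} (hη : 0 < η) : gg (dat η) Real.pi ≠ 1 := by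
  intro h
  have h1 := hasSum_gg η Real.pi
  rw [h, Complex.one_re, sub_self] at h1
  have h2 := h1.sub ((hasSum_mt 0).mul_left (η ^ 2))
  rw [mul_zero, sub_zero] at h2
  have h3 := h2.mul_left ((η ^ 2)⁻¹)
  rw [mul_zero] at h3
  have h4 : HasSum (fun m : ℤ => mt 0 m * (Real.cos (16 ^ m * Real.pi) - 1)) 0 := by
    refine h3.congr_fun fun m => ?_
    field_simp
  have hpos : ∀ n : ℕ, mt 0 ((n : ℤ)) * (Real.cos (16 ^ (n : ℤ) * Real.pi) - 1) =
      if n = 0 then -2 else 0 := by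
    intro n
    by_cases hn : n = 0
    · subst hn
      simp [mt]
      norm_num
    · rw [if_neg hn]
      have : Real.cos (16 ^ (n : ℤ) * Real.pi) = 1 := by
        obtain ⟨l, rfl⟩ : ∃ l, n = l + 1 := ⟨n - 1, by omega⟩
        rw [zpow_natCast]
        have e : (16 : ℝ) ^ (l + 1) * Real.pi = ((8 * 16 ^ l : ℕ) : ℝ) * (2 * Real.pi) := by
          push_cast
          ring
        rw [e, Real.cos_nat_mul_two_pi]
      rw [this, sub_self, mul_zero]
  have hneg : ∀ n : ℕ, ‖mt 0 (-((n : ℤ) + 1)) *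
      (Real.cos (16 ^ (-((n : ℤ) + 1)) * Real.pi) - 1)‖ ≤ (1 / 8) * (1 / 16) ^ n := by
    intro n
    rw [norm_mul, abs_mt]
    have h5 : ‖Real.cos (16 ^ (-((n : ℤ) + 1)) * Real.pi) - 1‖ ≤ 2 := by
      rw [Real.norm_eq_abs, abs_le]
      constructor <;> linarith [Real.neg_one_le_cos (16 ^ (-((n : ℤ) + 1)) * Real.pi),
        Real.cos_le_one (16 ^ (-((n : ℤ) + 1)) * Real.pi)]
    have h6 : (2 : ℝ) ^ ((4 * 0 + 2) * (-((n : ℤ) + 1)) - 2 * ((-((n : ℤ) + 1)) * (-((n : ℤ) + 1)))) ≤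
        2 ^ (-(4 * ((n : ℤ) + 1))) := by
      refine zpow_le_zpow_right₀ (by norm_num) ?_
      nlinarith [Int.natCast_nonneg n]
    have h7 : (2 : ℝ) ^ (-(4 * ((n : ℤ) + 1))) = (1 / 16) * (1 / 16) ^ n := by
      rw [zpow_neg, zpow_mul, zpow_add_one₀ (by norm_num), zpow_natCast]
      norm_num
      rw [one_div, inv_pow]
    rw [h7] at h6
    calc _ ≤ (1 / 16) * (1 / 16) ^ n * 2 := mul_le_mul h6 h5 (norm_nonneg _) (by positivity)
      _ = _ := by ring
  have hgeo : HasSum (fun n : ℕ => (1 / 8 : ℝ) * (1 / 16) ^ n) ((1 / 8) * (1 - 1 / 16)⁻¹) :=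
    (hasSum_geometric_of_lt_one (by norm_num) (by norm_num)).mul_left _
  have hsn : Summable fun n : ℕ => mt 0 (-((n : ℤ) + 1)) *
      (Real.cos (16 ^ (-((n : ℤ) + 1)) * Real.pi) - 1) :=
    Summable.of_norm_bounded hgeo.summable hneg
  have hle : ‖∑' n : ℕ, mt 0 (-((n : ℤ) + 1)) *
      (Real.cos (16 ^ (-((n : ℤ) + 1)) * Real.pi) - 1)‖ ≤ (1 / 8) * (1 - 1 / 16)⁻¹ :=
    tsum_of_norm_bounded hgeo hneg
  have hsp : HasSum (fun n : ℕ => mt 0 ((n : ℤ)) * (Real.cos (16 ^ (n : ℤ) * Real.pi) - 1)) (-2) := by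
    simp only [hpos]
    exact hasSum_ite_eq 0 (-2)
  have htot := HasSum.of_nat_of_neg_add_one (f := fun m : ℤ =>
    mt 0 m * (Real.cos (16 ^ m * Real.pi) - 1)) hsp hsn.hasSum
  have hz := h4.unique htot
  rw [Real.norm_eq_abs, abs_le] at hle
  have := hle.2
  norm_num at this hz
  linarith

theorem twoLimits {η : ℝ} (hη : 0 < η) : TwoLimits (dat η) := by
  have hinf : ∀ s : ℝ, Tendsto (fun j : ℕ => 2 * Real.pi * 16 ^ j + s) atTop atTop := by
    intro s
    refine tendsto_atTop_add_const_right _ _ ?_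
    exact (tendsto_pow_atTop_atTop_of_one_lt (by norm_num)).const_mul_atTop (by positivity)
  refine ⟨gg (dat η) 0, gg (dat η) Real.pi, fun j => 2 * Real.pi * 16 ^ j + 0,
    fun j => 2 * Real.pi * 16 ^ j + Real.pi, ?_, hinf 0, hinf _, gg_tendsto η 0,
    gg_tendsto η Real.pi⟩
  rw [gg_zero]
  exact (gg_pi_ne hη).symm

theorem vanish (η : ℝ) : (exm (dat η)).VanishAll := by
  intro ts h1
  refine isPProd_zero _ ts ?_
  have := inner_phi η ts.length
  rw [if_neg (by omega)] at this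
  exact this

theorem hypothesis (η : ℝ) (n : ℕ) : (exm (dat η)).Hypothesis n := by
  refine hypothesis_of _ fun k hk _ => ?_
  have := inner_phi η k
  rw [if_neg (by omega)] at this
  exact this

end Concrete

/-! ### the two-level example -/

section Two

open scoped InnerProductSpace

/-- frequencies `±1` -/
noncomputable def om2 (b : Bool) : ℝ := if b then 1 else -1

theorem mem_two (f : Bool → ℂ) : Memℓp f 2 := mem_of_sq (Summable.of_finite)

/-- the vectors `((i)^k, (-i)^k) / √2` -/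
noncomputable def phi2 (k : ℕ) : LL Bool :=
  ⟨fun b => ((om2 b : ℂ) * Complex.I) ^ k * ((Real.sqrt 2)⁻¹ : ℝ), mem_two _⟩

theorem phi2_apply (k : ℕ) (b : Bool) :
    phi2 k b = ((om2 b : ℂ) * Complex.I) ^ k * ((Real.sqrt 2)⁻¹ : ℝ) := rfl

theorem sqrt_two_inv : (Real.sqrt 2)⁻¹ * (Real.sqrt 2)⁻¹ = 1 / 2 := by
  rw [← mul_inv, Real.mul_self_sqrt (by norm_num)]
  norm_num

theorem inner_two (x : LL Bool) :
    ⟪phi2 0, x⟫_ℂ = (x true + x false) * ((Real.sqrt 2)⁻¹ : ℝ) := by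
  rw [lp.inner_eq_tsum, tsum_fintype, Fintype.sum_bool, RCLike.inner_apply, RCLike.inner_apply,
    phi2_apply, phi2_apply, pow_zero, pow_zero, one_mul, Complex.conj_ofReal]
  ring

theorem sqc : (((Real.sqrt 2)⁻¹ : ℝ) : ℂ) * (((Real.sqrt 2)⁻¹ : ℝ) : ℂ) = 1 / 2 := by
  rw [← Complex.ofReal_mul, sqrt_two_inv]
  norm_num

/-- the data of the two-level example -/
noncomputable def dat2 : Data Bool where
  ω := om2
  φ := phi2
  ψ := phi2 0
  hφ := fun k i => by rw [phi2_apply, phi2_apply, pow_succ]; ring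
  h0 := by
    rw [inner_two, phi2_apply, phi2_apply, pow_zero, pow_zero, one_mul, add_mul, sqc]
    norm_num
  h1 := by
    rw [inner_two, phi2_apply, phi2_apply]
    simp [om2]

theorem norm_phi2 : ‖phi2 0‖ = 1 := by
  have h : ‖phi2 0‖ ^ 2 = 1 := by
    rw [← inner_self_eq_norm_sq (𝕜 := ℂ)]
    have := dat2.h0
    have h2 : ⟪phi2 0, phi2 0⟫_ℂ = 1 := this
    rw [h2]
    simp
  have h3 : ‖phi2 0‖ ^ 2 = 1 ^ 2 := by rw [h]; norm_num
  exact (sq_eq_sq₀ (norm_nonneg _) zero_le_one).1 h3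

theorem norm_P2 : ‖PP dat2‖ ≤ 1 := by
  have h := PP_norm_le dat2
  have h1 : ‖dat2.ψ‖ * ‖dat2.φ 0‖ = ‖phi2 0‖ * ‖phi2 0‖ := rfl
  rw [h1, norm_phi2, mul_one] at h
  exact h

theorem gg2 (s : ℝ) : gg dat2 s = (Real.cos s : ℂ) := by
  have h : gg dat2 s = ⟪phi2 0, tr om2 s (phi2 0)⟫_ℂ := rfl
  rw [h, inner_two, tr_apply, tr_apply, phi2_apply, phi2_apply, pow_zero, pow_zero, one_mul,
    ← add_mul, mul_assoc, sqc]
  unfold ep om2
  simp only [if_true, Bool.false_eq_true, if_false]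
  rw [Complex.ofReal_cos, Complex.cos]
  push_cast
  rw [mul_one, mul_neg_one]
  ring

theorem twoLimits2 : TwoLimits dat2 := by
  have hinf : ∀ s : ℝ, Tendsto (fun j : ℕ => (j : ℝ) * (2 * Real.pi) + s) atTop atTop := by
    intro s
    refine tendsto_atTop_add_const_right _ _ ?_
    exact tendsto_natCast_atTop_atTop.atTop_mul_const (by positivity)
  refine ⟨1, -1, fun j => (j : ℝ) * (2 * Real.pi) + 0, fun j => (j : ℝ) * (2 * Real.pi) + Real.pi,
    by norm_num, hinf 0, hinf _, ?_, ?_⟩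
  · refine tendsto_const_nhds.congr fun j => ?_
    show (1 : ℂ) = gg dat2 ((j : ℝ) * (2 * Real.pi) + 0)
    rw [gg2, add_zero, Real.cos_nat_mul_two_pi]
    norm_num
  · refine tendsto_const_nhds.congr fun j => ?_
    show (-1 : ℂ) = gg dat2 ((j : ℝ) * (2 * Real.pi) + Real.pi)
    rw [gg2, Real.cos_nat_mul_two_pi_add_pi]
    norm_num

theorem hypothesis2 : (exm dat2).Hypothesis 0 := by
  refine hypothesis_of _ fun k hk hk2 => ?_
  obtain rfl : k = 1 := by omega
  exact dat2.h1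

end Two

/-! ### the positive result for orthogonal projections -/

section Positive

open scoped InnerProductSpace

variable {H : Type*} [NormedAddCommGroup H] [InnerProductSpace ℂ H]

theorem const_of {W : ℝ → H →L[ℂ] H} (hW : IsC0Semigroup W) {x : H}
    (h : Tendsto (fun h : ℝ => (h : ℂ)⁻¹ • (W h x - x)) (𝓝[>] 0) (𝓝 0)) :
    ∀ t, 0 ≤ t → W t x = x := by
  intro t ht
  have hder : ∀ s ∈ Set.Ico 0 t, HasDerivWithinAt (fun s => W s x) 0 (Set.Ici s) s := by
    intro s hs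
    rw [← hasDerivWithinAt_Ioi_iff_Ici, hasDerivWithinAt_iff_tendsto_slope' (by simp)]
    have h1 : Tendsto (fun y : ℝ => y - s) (𝓝[>] s) (𝓝[>] 0) := by
      apply tendsto_nhdsWithin_of_tendsto_nhds_of_eventually_within
      · have : Tendsto (fun y : ℝ => y - s) (𝓝 s) (𝓝 (s - s)) := tendsto_id.sub_const s
        rw [sub_self] at this
        exact this.mono_left nhdsWithin_le_nhds
      · filter_upwards [self_mem_nhdsWithin] with y hy
        exact sub_pos.2 (Set.mem_Ioi.1 hy)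
    have h2 := ((W s).continuous.tendsto 0).comp (h.comp h1)
    rw [map_zero] at h2
    refine h2.congr' ?_
    filter_upwards [self_mem_nhdsWithin] with y hy
    have hy' : s < y := hy
    simp only [Function.comp]
    rw [slope_def_module, map_smul, map_sub]
    have h3 : W y x = W s (W (y - s) x) := by
      have := hW.add s (y - s) hs.1 (by linarith)
      rw [add_sub_cancel] at this
      rw [this]
      rfl
    rw [h3, ← Complex.ofReal_inv, Complex.coe_smul]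
  have h1 := constant_of_has_deriv_right_zero (f := fun s => W s x) (a := 0) (b := t)
    ((hW.cont x).mono fun s hs => hs.1) hder t ⟨ht, le_rfl⟩
  have h2 : W t x = W 0 x := h1
  rw [h2, hW.zero]
  rfl

variable (S : Setting H)

theorem U_zero (hL0 : S.L0 = 0) (t : ℝ) (ht : 0 ≤ t) (x : H) : S.U 0 t x = x := by
  refine const_of (S.semigroup 0 le_rfl S.lamSup_pos) ?_ t ht
  have hx : x ∈ S.L0.domain := by
    rw [hL0]
    trivial
  have h := S.generator_zero.2 ⟨x, hx⟩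
  have h0 : S.L0 ⟨x, hx⟩ = 0 := by
    have hgen : ∀ (T : H →ₗ.[ℂ] H), T = 0 → ∀ z : T.domain, T z = 0 := by
      rintro T rfl z
      rfl
    exact hgen _ hL0 _
  rw [h0] at h
  exact h

theorem V_id (hL0 : S.L0 = 0) (t : ℝ) (x : H) : S.V t x = x := by
  have hpos : ∀ t : ℝ, 0 ≤ t → ∀ x, S.V t x = x := by
    intro t ht x
    have h1 := S.V_nonneg t ht
    have h2 : S.V t x = S.U 0 t x := by
      rw [← h1]
      rfl
    rw [h2]
    exact U_zero S hL0 t ht x
  rcases le_or_gt 0 t with ht | ht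
  · exact hpos t ht x
  · rw [S.V_neg t ht, ContinuousLinearEquiv.symm_apply_eq]
    exact (hpos (-t) (by linarith) x).symm

theorem V_symm_id (hL0 : S.L0 = 0) (t : ℝ) (x : H) : (S.V t).symm x = x := by
  rw [ContinuousLinearEquiv.symm_apply_eq]
  exact (V_id S hL0 t x).symm

/-- the generator property for `L` itself -/
theorem gen_L (hL0 : S.L0 = 0) {lam : ℝ} (h0 : 0 < lam) (h1 : lam < S.lamSup) (x : S.L.domain) :
    Tendsto (fun h : ℝ => (h : ℂ)⁻¹ • (S.U lam h x - x)) (𝓝[>] 0) (𝓝 ((lam : ℂ) • S.L x)) := by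
  have hg := S.generator lam h0 h1
  rw [hL0] at hg
  have hx : (x : H) ∈ ((0 : H →ₗ.[ℂ] H) + (lam : ℂ) • S.L).domain := by
    rw [LinearPMap.add_domain, LinearPMap.smul_domain, LinearPMap.zero_domain]
    simp
  have h2 := hg.2 ⟨x, hx⟩
  have h3 : ((0 : H →ₗ.[ℂ] H) + (lam : ℂ) • S.L) ⟨x, hx⟩ = (lam : ℂ) • S.L x := by
    rw [LinearPMap.add_apply, LinearPMap.smul_apply]
    simp [-Complex.coe_smul]
  rw [h3] at h2
  exact h2

theorem dissipative (hL0 : S.L0 = 0)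
    (hc : ∃ lam, 0 < lam ∧ lam < S.lamSup ∧ ∀ t, 0 ≤ t → ∀ x, ‖S.U lam t x‖ ≤ ‖x‖)
    (x : S.L.domain) : (⟪(x : H), S.L x⟫_ℂ).re ≤ 0 := by
  obtain ⟨lam, h0, h1, hc⟩ := hc
  have h2 := gen_L S hL0 h0 h1 x
  have h3 : Tendsto (fun h : ℝ => (⟪(x : H), (h : ℂ)⁻¹ • (S.U lam h x - x)⟫_ℂ).re) (𝓝[>] 0)
      (𝓝 (⟪(x : H), (lam : ℂ) • S.L x⟫_ℂ).re) :=
    (Complex.continuous_re.tendsto _).comp (tendsto_const_nhds.inner h2)
  have h4 : (⟪(x : H), (lam : ℂ) • S.L x⟫_ℂ).re ≤ 0 := by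
    refine le_of_tendsto h3 ?_
    filter_upwards [self_mem_nhdsWithin] with h hh
    have hh' : 0 < h := hh
    rw [inner_smul_right, ← Complex.ofReal_inv, Complex.re_ofReal_mul, inner_sub_right,
      Complex.sub_re]
    have h5 : (⟪(x : H), (x : H)⟫_ℂ).re = ‖(x : H)‖ ^ 2 := inner_self_eq_norm_sq (𝕜 := ℂ) (x : H)
    have h6 : (⟪(x : H), S.U lam h x⟫_ℂ).re ≤ ‖(x : H)‖ * ‖S.U lam h x‖ :=
      (Complex.re_le_norm _).trans (norm_inner_le_norm _ _)
    have h7 := hc h hh'.le x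
    refine mul_nonpos_of_nonneg_of_nonpos (by positivity) ?_
    rw [h5]
    nlinarith [norm_nonneg (x : H)]
  rw [inner_smul_right, Complex.re_ofReal_mul] at h4
  by_contra hcon
  push Not at hcon
  nlinarith

/-- for a projection of norm at most one, the kernel and the range are orthogonal -/
theorem orth (hP : ‖S.P‖ ≤ 1) {z w : H} (hz : S.P z = 0) (hw : S.P w = w) : ⟪w, z⟫_ℂ = 0 := by
  obtain ⟨α, hα⟩ : ∃ α : ℂ, α = ⟪w, z⟫_ℂ := ⟨_, rfl⟩
  rw [← hα]
  have h1 : ∀ c : ℂ, 0 ≤ 2 * (c * α).re + ‖c‖ ^ 2 * ‖z‖ ^ 2 := by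
    intro c
    have h2 : ‖w‖ ≤ ‖w + c • z‖ := by
      have h3 : S.P (w + c • z) = w := by rw [map_add, map_smul, hz, hw, smul_zero, add_zero]
      calc ‖w‖ = ‖S.P (w + c • z)‖ := by rw [h3]
        _ ≤ ‖S.P‖ * ‖w + c • z‖ := S.P.le_opNorm _
        _ ≤ 1 * ‖w + c • z‖ := mul_le_mul_of_nonneg_right hP (norm_nonneg _)
        _ = _ := one_mul _
    have h4 : ‖w + c • z‖ ^ 2 = ‖w‖ ^ 2 + 2 * (c * α).re + ‖c‖ ^ 2 * ‖z‖ ^ 2 := by
      have h5 := norm_add_sq (𝕜 := ℂ) w (c • z)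
      rw [inner_smul_right, ← hα, norm_smul, mul_pow] at h5
      exact h5
    have h6 : ‖w‖ ^ 2 ≤ ‖w + c • z‖ ^ 2 := pow_le_pow_left₀ (norm_nonneg _) h2 2
    linarith
  by_contra hne
  have hpos : 0 < ‖α‖ ^ 2 := by positivity
  obtain ⟨s, hs⟩ : ∃ s : ℝ, s = (‖z‖ ^ 2 + 1)⁻¹ := ⟨_, rfl⟩
  have hz2 : 0 ≤ ‖z‖ ^ 2 := by positivity
  have hs0 : 0 < s := by rw [hs]; positivity
  have hs1 : s * (‖z‖ ^ 2 + 1) = 1 := by rw [hs]; exact inv_mul_cancel₀ (by positivity)
  have h2 := h1 (-(s : ℂ) * (starRingEnd ℂ) α)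
  have e1 : (-(s : ℂ) * (starRingEnd ℂ) α * α).re = -s * ‖α‖ ^ 2 := by
    rw [mul_assoc, Complex.conj_mul']
    have : -(s : ℂ) * (‖α‖ : ℂ) ^ 2 = ((-s * ‖α‖ ^ 2 : ℝ) : ℂ) := by push_cast; ring
    rw [this, Complex.ofReal_re]
  have e2 : ‖-(s : ℂ) * (starRingEnd ℂ) α‖ ^ 2 = s ^ 2 * ‖α‖ ^ 2 := by
    rw [norm_mul, norm_neg, Complex.norm_real, Real.norm_of_nonneg hs0.le, RCLike.norm_conj]
    ring
  rw [e1, e2] at h2
  have h3 : s ^ 2 * ‖α‖ ^ 2 * ‖z‖ ^ 2 ≤ s * ‖α‖ ^ 2 := by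
    have : s * ‖z‖ ^ 2 ≤ 1 := by nlinarith
    have h4 : s * ‖α‖ ^ 2 * (s * ‖z‖ ^ 2) ≤ s * ‖α‖ ^ 2 * 1 :=
      mul_le_mul_of_nonneg_left this (by positivity)
    nlinarith
  nlinarith [mul_pos hs0 hpos]

theorem volume_region : volume {τ : Fin 2 → ℝ | (∀ i j, i < j → τ j < τ i) ∧ ∀ i, τ i < 0} = ⊤ := by
  have h1 : Set.pi Set.univ ![Set.Ioo (-1 : ℝ) 0, Set.Iio (-1 : ℝ)] ⊆
      {τ : Fin 2 → ℝ | (∀ i j, i < j → τ j < τ i) ∧ ∀ i, τ i < 0} := by
    intro τ hτ
    have h2 := hτ 0 (Set.mem_univ _)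
    have h3 := hτ 1 (Set.mem_univ _)
    simp only [Matrix.cons_val_zero, Matrix.cons_val_one, Set.mem_Ioo, Set.mem_Iio] at h2 h3
    refine ⟨fun i j hij => ?_, fun i => ?_⟩
    · fin_cases i <;> fin_cases j <;> simp at hij ⊢
      linarith
    · fin_cases i
      · exact h2.2
      · show τ 1 < 0
        linarith
  have h2 : volume (Set.pi Set.univ ![Set.Ioo (-1 : ℝ) 0, Set.Iio (-1 : ℝ)]) = ⊤ := by
    rw [volume_pi_pi]
    simp
  exact top_le_iff.1 (h2 ▸ measure_mono h1)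

theorem PLLP (hL0 : S.L0 = 0) (hyp : S.Hypothesis 1) (x : H) :
    ∃ (h1 : S.P x ∈ S.L.domain) (h2 : S.L ⟨S.P x, h1⟩ ∈ S.L.domain),
      S.P (S.L ⟨S.L ⟨S.P x, h1⟩, h2⟩) = 0 := by
  obtain ⟨A, hA, hint⟩ := hyp 2 (by norm_num) le_rfl
  have key : ∀ (τ : Fin 2 → ℝ) (x : H),
      ∃ (h1 : S.P x ∈ S.L.domain) (h2 : S.L ⟨S.P x, h1⟩ ∈ S.L.domain),
      A τ x = S.P (S.L ⟨S.L ⟨S.P x, h1⟩, h2⟩) := by
    intro τ x
    obtain ⟨y, hy, hAy⟩ := hA τ x
    rw [List.ofFn_succ, List.ofFn_succ, List.ofFn_zero] at hy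
    obtain ⟨z, ⟨w, hw, hz⟩, hy⟩ := hy
    have hw' : S.P x = w := hw
    subst hw'
    obtain ⟨d1, e1⟩ := hz
    obtain ⟨d2, e2⟩ := hy
    have d1' : S.P x ∈ S.L.domain := by rwa [V_id S hL0] at d1
    have e1' : S.L ⟨S.P x, d1'⟩ = z := by
      rw [V_symm_id S hL0] at e1
      rw [← e1]
      congr 1
      exact Subtype.ext (V_id S hL0 _ _).symm
    have d2' : z ∈ S.L.domain := by rwa [V_id S hL0] at d2
    have e2' : S.L ⟨z, d2'⟩ = y := by
      rw [V_symm_id S hL0] at e2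
      rw [← e2]
      congr 1
      exact Subtype.ext (V_id S hL0 _ _).symm
    subst e1'
    subst e2'
    exact ⟨d1', d2', hAy⟩
  have hconst : ∀ τ, A τ = A 0 := by
    intro τ
    ext1 x
    obtain ⟨h1, h2, h3⟩ := key τ x
    obtain ⟨h1', h2', h3'⟩ := key 0 x
    rw [h3, h3']
  have hz : A 0 = 0 := by
    have h1 := hint 0 le_rfl
    have h2 : IntegrableOn (fun _ : Fin 2 → ℝ => ‖A 0‖)
        {τ | (∀ i j, i < j → τ j < τ i) ∧ ∀ i, τ i < 0} := by
      refine h1.congr (Eventually.of_forall fun τ => ?_)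
      show ‖A τ‖ = ‖A 0‖
      rw [hconst τ]
    rw [integrableOn_const_iff] at h2
    rcases h2 with h2 | h2
    · exact norm_eq_zero.1 (enorm_eq_zero.1 h2)
    · rw [volume_region] at h2
      exact absurd h2 (lt_irrefl _)
  obtain ⟨h1, h2, h3⟩ := key 0 x
  refine ⟨h1, h2, ?_⟩
  rw [← h3, hz]
  rfl

theorem LP_zero (hL0 : S.L0 = 0)
    (hc : ∃ lam, 0 < lam ∧ lam < S.lamSup ∧ ∀ t, 0 ≤ t → ∀ x, ‖S.U lam t x‖ ≤ ‖x‖)
    (hP : ‖S.P‖ ≤ 1) (hyp : S.Hypothesis 1) (x : H) :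
    ∃ h : S.P x ∈ S.L.domain, S.L ⟨S.P x, h⟩ = 0 := by
  obtain ⟨h1, h2, h3⟩ := PLLP S hL0 hyp x
  refine ⟨h1, ?_⟩
  obtain ⟨y, hy⟩ : ∃ y, y = S.L ⟨S.P x, h1⟩ := ⟨_, rfl⟩
  obtain ⟨v, hv⟩ : ∃ v, v = S.L ⟨S.L ⟨S.P x, h1⟩, h2⟩ := ⟨_, rfl⟩
  have hPy : S.P y = 0 := by
    obtain ⟨h, hh⟩ := S.PLP x
    rw [hy]
    exact hh
  have hPv : S.P v = 0 := by rw [hv]; exact h3
  have hPP : S.P (S.P x) = S.P x := congrArg (fun T : H →L[ℂ] H => T x) S.P_proj
  have o1 : ⟪S.P x, y⟫_ℂ = 0 := orth S hP hPy hPP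
  have o2 : ⟪S.P x, v⟫_ℂ = 0 := orth S hP hPv hPP
  have key : ∀ c : ℝ, c * ‖y‖ ^ 2 + (⟪y, v⟫_ℂ).re ≤ 0 := by
    intro c
    obtain ⟨z, hzdef⟩ : ∃ z : S.L.domain,
      z = (c : ℂ) • (⟨S.P x, h1⟩ : S.L.domain) + ⟨S.L ⟨S.P x, h1⟩, h2⟩ := ⟨_, rfl⟩
    have hd := dissipative S hL0 hc z
    have e1 : S.L z = (c : ℂ) • y + v := by
      rw [hzdef, LinearPMap.map_add, LinearPMap.map_smul, ← hv, ← hy]
    have e : (z : H) = (c : ℂ) • S.P x + y := by
      rw [hzdef, hy]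
      rfl
    rw [e1, e, inner_add_left, inner_add_right, inner_add_right, inner_smul_left, inner_smul_left,
      inner_smul_right, o1, o2, inner_smul_right] at hd
    have h5 : (⟪y, y⟫_ℂ) = ((‖y‖ ^ 2 : ℝ) : ℂ) := by
      rw [inner_self_eq_norm_sq_to_K]
      push_cast
      rfl
    rw [h5] at hd
    simp only [mul_zero, zero_add, Complex.add_re] at hd
    rw [← Complex.ofReal_mul, Complex.ofReal_re] at hd
    exact hd
  rw [← hy]
  by_contra hne
  have hpos : 0 < ‖y‖ ^ 2 := by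
    have : 0 < ‖y‖ := norm_pos_iff.2 hne
    positivity
  have h6 := key ((1 - (⟪y, v⟫_ℂ).re) / ‖y‖ ^ 2)
  rw [div_mul_cancel₀ _ hpos.ne'] at h6
  linarith

theorem reduced_P (hL0 : S.L0 = 0)
    (hc : ∃ lam, 0 < lam ∧ lam < S.lamSup ∧ ∀ t, 0 ≤ t → ∀ x, ‖S.U lam t x‖ ≤ ‖x‖)
    (hP : ‖S.P‖ ≤ 1) (hyp : S.Hypothesis 1) {lam s : ℝ} (h0 : 0 < lam) (h1 : lam < S.lamSup)
    (hs : 0 ≤ s) : S.reduced lam s = S.P := by
  ext1 x
  have e : S.reduced lam s x = S.P ((S.V s).symm (S.U lam s (S.P x))) := rfl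
  have hPP : S.P (S.P x) = S.P x := congrArg (fun T : H →L[ℂ] H => T x) S.P_proj
  obtain ⟨hd, hz⟩ := LP_zero S hL0 hc hP hyp x
  have h2 := gen_L S hL0 h0 h1 ⟨S.P x, hd⟩
  rw [hz, smul_zero] at h2
  have h3 := const_of (S.semigroup lam h0.le h1) h2 s hs
  rw [e, V_symm_id S hL0, h3, hPP]

theorem conclusion (hL0 : S.L0 = 0)
    (hc : ∃ lam, 0 < lam ∧ lam < S.lamSup ∧ ∀ t, 0 ≤ t → ∀ x, ‖S.U lam t x‖ ≤ ‖x‖)
    (hP : ‖S.P‖ ≤ 1) (hyp : S.Hypothesis 1) (n : ℕ) : S.Conclusion n := by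
  refine ⟨0, 0, fun _ => S.P, fun _ => 0, fun _ => ?_, fun _ => ?_, fun t ht => ?_⟩
  · rw [S.P_proj, S.P_proj]
  · rw [mul_zero, zero_mul]
  · have h1 : (fun lam : ℝ => S.reduced lam (t / lam ^ 2) -
        ansatz 0 0 (fun _ => S.P) (fun _ => 0) lam t) =ᶠ[𝓝[>] 0] fun _ => 0 := by
      have h2 : ∀ᶠ lam : ℝ in 𝓝[>] 0, lam < S.lamSup :=
        mem_nhdsWithin_of_mem_nhds (Iio_mem_nhds S.lamSup_pos)
      filter_upwards [h2, self_mem_nhdsWithin] with lam h3 h4
      have h4' : 0 < lam := h4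
      rw [reduced_P S hL0 hc hP hyp h4' h3 (by positivity)]
      unfold ansatz
      simp
    exact (Asymptotics.isBigO_zero _ _).congr' h1.symm EventuallyEq.rfl

end Positive

/-- **Main theorem.**  The problem on Hilbert spaces, already with `L0 = 0`.

(A) For every `ε > 0` there is ONE instance of the setting of the problem, on the Hilbert space `ℓ²`
(over the countable index set `Option ℤ`), with `L0 = 0`, with unitary groups `U lam`, and with a
rank-one projection `P` of norm `< 1 + ε`, such that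
* all the operators `P L_{t_1} ⋯ L_{t_k} P`, `k ≥ 1` arbitrary, are defined and vanish identically, so
  the hypotheses of the problem hold for EVERY `n`;
* for every `t > 0` the reduced dynamics at time `t / lam ^ 2` has no limit as `lam → 0+`, and its
  difference from `u_t r` does not tend to `0` for any polynomial `r`, `G`;
* the conclusion of the problem fails for every `n`.

(B) The norm of `P` in (A) cannot be `1`: on every complex inner product space, if `L0 = 0`,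
`‖P‖ ≤ 1` (an orthogonal projection), `U lam` consists of contractions for one `lam` in
`(0, lamSup)`, and the hypotheses hold for `n = 1`, then `L P = 0`, the reduced dynamics is
identically `P`, and the conclusion holds for every `n`.

(C) In (B) the hypotheses for `n = 1` cannot be replaced by those for `n = 0`: there is an instance on
the two-dimensional Hilbert space with `L0 = 0`, `‖P‖ ≤ 1` and unitary groups `U lam`, satisfying
the hypotheses for `n = 0`, in which the reduced dynamics at time `t / lam ^ 2` has no limit and the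
conclusion fails for every `n`. -/
theorem result.{u} :
    (∀ ε : ℝ, 0 < ε → ∃ S : Setting (LL (Option ℤ)),
      S.L0 = 0 ∧ ‖S.P‖ < 1 + ε ∧ S.RankOne ∧ S.Isometric ∧ S.VanishAll ∧ (∀ n, S.Hypothesis n) ∧
        S.Fails) ∧
    (∀ (H : Type u) [NormedAddCommGroup H] [InnerProductSpace ℂ H] (S : Setting H),
      S.L0 = 0 → ‖S.P‖ ≤ 1 → S.Contractive → S.Hypothesis 1 →
      S.LPZero ∧ (∀ lam s, 0 < lam → lam < S.lamSup → 0 ≤ s → S.reduced lam s = S.P) ∧
      ∀ n, S.Conclusion n) ∧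
    ∃ S : Setting (LL Bool),
      S.L0 = 0 ∧ ‖S.P‖ ≤ 1 ∧ S.Isometric ∧ S.Hypothesis 0 ∧ S.Fails := by
  refine ⟨fun ε hε => ?_, fun H _ _ S hL0 hP hc hyp => ⟨LP_zero S hL0 hc hP hyp,
    fun lam s h0 h1 hs => reduced_P S hL0 hc hP hyp h0 h1 hs, conclusion S hL0 hc hP hyp⟩, ?_⟩
  · obtain ⟨T, hT⟩ : ∃ T, T = ∑' m, ww m * ww m := ⟨_, rfl⟩
    have hT0 : 0 ≤ T := by
      rw [hT]
      exact tsum_nonneg fun m => mul_self_nonneg _
    have hq : 0 < ε / (T + 1) := by positivity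
    obtain ⟨η, hη⟩ : ∃ η, η = Real.sqrt (ε / (T + 1)) := ⟨_, rfl⟩
    have hη0 : 0 < η := by rw [hη]; exact Real.sqrt_pos.2 hq
    have hη2 : η ^ 2 * (T + 1) = ε := by
      rw [hη, Real.sq_sqrt hq.le]
      field_simp
    refine ⟨exm (dat η), rfl, ?_, ⟨phi η 0, phi_ne (dat η), fun x => ⟨_, rfl⟩⟩,
      fun lam t => ⟨norm_tr _ _, tr_surj _ _⟩, vanish η, hypothesis η,
      fun t ht => ⟨no_expansion _ (twoLimits hη0) ht, fun ⟨ℓ, h⟩ =>
        no_limit _ (twoLimits hη0) ht ℓ h⟩, no_conclusion _ (twoLimits hη0)⟩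
    have h1 := norm_P_le η
    rw [← hT] at h1
    have h2 : ‖(exm (dat η)).P‖ ≤ 1 + η ^ 2 * T := h1
    nlinarith [pow_pos hη0 2]
  · exact ⟨exm dat2, rfl, norm_P2, fun lam t => ⟨norm_tr _ _, tr_surj _ _⟩, hypothesis2,
      fun t ht => ⟨no_expansion _ twoLimits2 ht, fun ⟨ℓ, h⟩ => no_limit _ twoLimits2 ht ℓ h⟩,
      no_conclusion _ twoLimits2⟩

end Pool.Agent.Results.MP_245269_an.HilbertSpace
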